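import Mathlib
import Pool.Agent.PatDepth.Defs
import Pool.Agent.PatDepth.Chain

/-!
# MP_49a8fd_lc — inclusions of pattern languages whose lengths differ by at most one
-/

namespace Pool.Agent.Results.MP_49a8fd_lc.SlowChains

open Pool.Agent.PatDepth

/-- For every alphabet `A` with at least two letters:
(1) if `L(p) ⊊ L(q)` and `|p| ≤ |q| + 1` then `2|p| - #var(p) > 2|q| - #var(q)`;
(2) for every non-empty pattern `p`, the largest number of strict inclusions in a chain of pattern
languages from `L(x₁)` down to `L(p)` whose patterns get longer by at most one symbol per step is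
exactly `2|p| - #var(p) - 1`. -/
theorem result (A : Type) [Nontrivial A] :
    (∀ p q : List (ℕ ⊕ A), p ≠ [] → q ≠ [] → Lang p ⊂ Lang q → p.length ≤ q.length + 1 →
      2 * q.length + nvar p < 2 * p.length + nvar q) ∧
    (∀ p : List (ℕ ⊕ A), p ≠ [] →
      IsGreatest {n | HasSlowChain p n} (2 * p.length - nvar p - 1)) :=
  ⟨fun _ _ _ _ h hl => partOne h hl, fun _ hp => chain_greatest hp⟩

end Pool.Agent.Results.MP_49a8fd_lc.SlowChains
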